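import Pool.Agent.H96.AL.Targets3

/-!
Board al_modules, module DR: boundedly many directions.
-/

open Topology Set Filter Real

namespace Pool.Agent.H67.AL

open Pool.Agent.H96.AL

/-- a point on a shortest path at a given distance -/
theorem geo_point {X : Type} [MetricSpace X] (hG : Geo X) (x y : X) (r : ℝ) (h0 : 0 ≤ r)
    (h1 : r ≤ dist x y) : ∃ m : X, dist x m = r ∧ dist m y = dist x y - r := by
  obtain ⟨γ, hγ0, hγ1, hγ⟩ := hG x y
  refine ⟨γ r, ?_, ?_⟩
  · have h := hγ 0 ⟨le_rfl, dist_nonneg⟩ r ⟨h0, h1⟩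
    rw [hγ0] at h
    rw [h, zero_sub, abs_neg, abs_of_nonneg h0]
  · have h := hγ r ⟨h0, h1⟩ (dist x y) ⟨dist_nonneg, le_rfl⟩
    rw [hγ1] at h
    rw [h, abs_sub_comm, abs_of_nonneg (by linarith)]

theorem dr (hMO : T_MO) (hPG : T_PG) (hEL : T_EL) : T_DR := by
  intro X _ D hS hdim
  by_cases hne : Nonempty X
  swap
  · exact ⟨1, fun x => absurd ⟨x⟩ hne⟩
  obtain ⟨n, c, C, hc, hC, hP⟩ := hPG X D hS hdim hne
  have hD : 1 ≤ cosh D := one_le_cosh D
  obtain ⟨N, hN⟩ : ∃ N : ℕ, N = ⌊C * (2 * cosh D) ^ n⌋₊ + 1 := ⟨_, rfl⟩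
  have hNpos : 0 < N := by rw [hN]; exact Nat.succ_pos _
  refine ⟨N, ?_⟩
  intro x a hne hmon hcc
  set last : Fin N := ⟨N - 1, by omega⟩ with hlast
  set r := dist x (a last) with hr
  have hr0 : 0 < r := dist_pos.2 (hne last).symm
  have hrD : r ≤ D := hS.diam _ _
  have hrle : ∀ i, r ≤ dist x (a i) := by
    intro i
    rcases lt_or_eq_of_le (show i ≤ last from Fin.mk_le_mk.2 (by omega)) with h | h
    · exact hmon i last h
    · rw [h]
  choose b hb1 hb2 using fun i => geo_point hS.geo x (a i) r hr0.le (hrle i)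
  have hbtw : ∀ i, Btw x (b i) (a i) := fun i => by
    show dist x (b i) + dist (b i) (a i) = dist x (a i)
    rw [hb1, hb2]; ring
  have hxb : ∀ i, x ≠ b i := fun i h => by
    have := hb1 i
    rw [← h, dist_self] at this
    exact hr0.ne this
  set ε := r / (2 * cosh D) with hε
  have hcD : 0 < 2 * cosh D := by linarith
  have hε0 : 0 < ε := div_pos hr0 hcD
  have hεr : ε ≤ r := div_le_self hr0.le (by linarith)
  have hsep : ∀ i j, i < j → ε ≤ dist (b i) (b j) := by
    intro i j hij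
    have h1 := (hMO X hS.cb x (a i) (a j) (b i) (b j) (hbtw i) (hbtw j) (hxb i) (hxb j)).trans
      (hcc i j hij)
    rw [hb1, hb1] at h1
    set d := dist (b i) (b j) with hd
    have hd0 : 0 ≤ d := dist_nonneg
    have hsr : r ≤ sinh r := (hEL r r hr0.le le_rfl).1
    have hs0 : 0 < sinh r := hr0.trans_le hsr
    unfold cc at h1
    rw [div_le_iff₀ (mul_pos hs0 hs0)] at h1
    have h2 := (hEL D d hd0 (hS.diam _ _)).2.2.2.1
    have h3 := cosh_sq r
    have h4 : cosh r * cosh r - 3 / 4 * (sinh r * sinh r) ≤ cosh d := by linarith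
    have h5 : r ^ 2 ≤ sinh r ^ 2 := pow_le_pow_left₀ hr0.le hsr 2
    have h6 : r ^ 2 / 2 ≤ d ^ 2 * cosh D := by nlinarith
    have h7 : ε ^ 2 ≤ d ^ 2 := by
      rw [hε, div_pow, div_le_iff₀ (by positivity)]
      have h8 : d ^ 2 * (cosh D * 1) ≤ d ^ 2 * (cosh D * cosh D) := by gcongr
      nlinarith
    exact abs_le_of_sq_le_sq' h7 hd0 |>.2
  have hsep' : ∀ i j, i ≠ j → ε ≤ dist (b i) (b j) := by
    intro i j hij
    rcases lt_or_gt_of_ne hij with h | h
    · exact hsep i j h
    · rw [dist_comm]; exact hsep j i h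
  have hinj : Function.Injective b := by
    intro i j hij
    by_contra h
    have := hsep' i j h
    rw [hij, dist_self] at this
    linarith
  classical
  have hpack := (hP x r ε hr0 hrD hε0 hεr).2 (Finset.univ.image b) (by
    intro y hy
    simp only [Finset.coe_image, Finset.coe_univ, image_univ, mem_range] at hy
    obtain ⟨i, rfl⟩ := hy
    rw [Metric.mem_closedBall, dist_comm, hb1]) (by
    intro y hy y' hy' hyy
    obtain ⟨i, -, rfl⟩ := Finset.mem_image.1 hy
    obtain ⟨j, -, rfl⟩ := Finset.mem_image.1 hy'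
    exact hsep' i j fun h => hyy (by rw [h]))
  rw [Finset.card_image_of_injective _ hinj, Finset.card_univ, Fintype.card_fin] at hpack
  have h1 : r / ε = 2 * cosh D := by
    rw [hε]; field_simp
  rw [h1] at hpack
  have h2 := Nat.lt_floor_add_one (C * (2 * cosh D) ^ n)
  rw [hN] at hpack
  push_cast at hpack
  linarith

end Pool.Agent.H67.AL
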