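import Pool.Agent.H96.AL.Targets3

/-!
Board al_modules, module MV: moving towards the points of a strainer.
-/

open Topology Set Filter Real

namespace Pool.Agent.H67.AL

open Pool.Agent.H96.AL

/-- little lemma on hyperbolic cosines -/
theorem cosh_little (f k e : ℝ) (hf : 0 < f) (he : 0 < e) :
    ∀ᶠ s in 𝓝[>] (0 : ℝ), ∀ F : ℝ, 0 ≤ F → cosh f - k * (sinh s * sinh f) ≤ cosh F →
      f - (k + e) * s ≤ F := by
  set g : ℝ → ℝ := fun s => cosh (f - (k + e) * s) - cosh f + k * (sinh s * sinh f) with hg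
  have hd : HasDerivAt g (-(e * sinh f)) 0 := by
    have h1 : HasDerivAt (fun s : ℝ => f - (k + e) * s) (-(k + e)) 0 := by
      simpa using ((hasDerivAt_id (0 : ℝ)).const_mul (k + e)).const_sub f
    have h2 := h1.cosh
    have h3 : HasDerivAt (fun s : ℝ => k * (sinh s * sinh f)) (k * (cosh 0 * sinh f)) 0 :=
      (((hasDerivAt_id (0 : ℝ)).sinh.mul_const (sinh f)).const_mul k).congr_deriv (by simp)
    have h4 := (h2.sub_const (cosh f)).add h3
    refine h4.congr_deriv ?_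
    simp only [mul_zero, sub_zero, cosh_zero]
    ring
  have hs : 0 < sinh f := sinh_pos_iff.2 hf
  have h1 := hasDerivAt_iff_tendsto_slope.1 hd
  have h2 : ∀ᶠ s in 𝓝[≠] (0 : ℝ), slope g 0 s < 0 :=
    h1.eventually (gt_mem_nhds (by nlinarith [mul_pos he hs]))
  have h3 : ∀ᶠ s in 𝓝[>] (0 : ℝ), slope g 0 s < 0 :=
    h2.filter_mono (nhdsWithin_mono _ fun s hs => ne_of_gt hs)
  filter_upwards [h3, self_mem_nhdsWithin] with s hs1 hs0 F hF hle
  rw [mem_Ioi] at hs0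
  by_contra hcon
  push Not at hcon
  have hg0 : g 0 = 0 := by simp [hg]
  rw [slope_def_field, hg0, sub_zero, sub_zero, div_lt_iff₀ hs0, zero_mul] at hs1
  have h5 : cosh F < cosh (f - (k + e) * s) := by
    rw [cosh_lt_cosh, abs_of_nonneg hF]
    exact hcon.trans_le (le_abs_self _)
  have h6 : cosh (f - (k + e) * s) - cosh f + k * (sinh s * sinh f) < 0 := hs1
  linarith

theorem geod_dist {X : Type} [MetricSpace X] {γ : ℝ → X} {x y : X} (h : IsGeod γ x y) {s : ℝ}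
    (h0 : 0 ≤ s) (h1 : s ≤ dist x y) : dist x (γ s) = s ∧ dist (γ s) y = dist x y - s := by
  obtain ⟨hγ0, hγ1, hγ⟩ := h
  constructor
  · have h := hγ 0 ⟨le_rfl, dist_nonneg⟩ s ⟨h0, h1⟩
    rw [hγ0] at h
    rw [h, zero_sub, abs_neg, abs_of_nonneg h0]
  · have h := hγ s ⟨h0, h1⟩ (dist x y) ⟨dist_nonneg, le_rfl⟩
    rw [hγ1] at h
    rw [h, abs_sub_comm, abs_of_nonneg (by linarith)]

/-- lower bound for the distance to `q` when moving towards `p` -/
theorem side (hHH : T_HH) {X : Type} [MetricSpace X] (hCB : CB X) (y p q : X) (γ : ℝ → X)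
    (hγ : IsGeod γ y p) (k e : ℝ) (hyp : y ≠ p) (hyq : y ≠ q)
    (hcc : cc (dist y p) (dist y q) (dist p q) ≤ k) (he : 0 < e) :
    ∀ᶠ s in 𝓝[>] (0 : ℝ), dist y q - (k + e) * s ≤ dist (γ s) q := by
  have h1 := cosh_little (dist y q) k e (dist_pos.2 hyq) he
  have h2 : ∀ᶠ s in 𝓝[>] (0 : ℝ), s < dist y p :=
    nhdsWithin_le_nhds (gt_mem_nhds (dist_pos.2 hyp))
  filter_upwards [h1, h2, self_mem_nhdsWithin] with s hs1 hs2 hs0
  rw [mem_Ioi] at hs0
  refine hs1 _ dist_nonneg ?_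
  obtain ⟨h3, h4⟩ := geod_dist hγ hs0.le hs2.le
  have h5 := hHH X hCB q y p (γ s) (by
    show dist y (γ s) + dist (γ s) p = dist y p
    rw [h3, h4]; ring) hyq hyp
  rw [h3] at h5
  refine le_trans ?_ h5
  have h6 : 0 ≤ sinh s * sinh (dist y q) :=
    mul_nonneg (sinh_nonneg_iff.2 hs0.le) (sinh_nonneg_iff.2 dist_nonneg)
  have h7 : sinh s * sinh (dist y q) * cc (dist y p) (dist y q) (dist p q) ≤
      sinh s * sinh (dist y q) * k := mul_le_mul_of_nonneg_left hcc h6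
  have h8 : 1 * cosh (dist y q) ≤ cosh s * cosh (dist y q) :=
    mul_le_mul_of_nonneg_right (one_le_cosh s) (cosh_pos _).le
  linarith

/-- both bounds for the distance to `a` -/
theorem both (hHH : T_HH) (hXS : T_XS) {X : Type} [MetricSpace X] (hG : Geo X) (hCB : CB X)
    (a b : X) (κ : ℝ) (O : Set X) (hκ : 0 < κ) (hκ1 : κ ≤ 1) (hO : IsOpen O)
    (hst : ∀ w ∈ O, w ≠ a ∧ w ≠ b ∧ cc (dist w a) (dist w b) (dist a b) ≤ -1 + κ ^ 2)
    (y p : X) (hy : y ∈ O) (hyp : y ≠ p) (γ : ℝ → X) (hγ : IsGeod γ y p) (ε : ℝ) (hε : 0 < ε)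
    (ha : cc (dist y p) (dist y a) (dist p a) ≤ κ)
    (hb : cc (dist y p) (dist y b) (dist p b) ≤ κ) :
    ∀ᶠ s in 𝓝[>] (0 : ℝ), |dist (γ s) a - dist y a| ≤ (3 * κ + ε) * s := by
  have h1 := side hHH hCB y p a γ hγ κ ε hyp (hst y hy).1 ha hε
  have h2 := side hHH hCB y p b γ hγ κ ε hyp (hst y hy).2.1 hb hε
  obtain ⟨ρ, hρ, hρO⟩ := Metric.isOpen_iff.1 hO y hy
  have h3 : ∀ᶠ s in 𝓝[>] (0 : ℝ), s < dist y p :=
    nhdsWithin_le_nhds (gt_mem_nhds (dist_pos.2 hyp))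
  have h4 : ∀ᶠ s in 𝓝[>] (0 : ℝ), s < ρ := nhdsWithin_le_nhds (gt_mem_nhds hρ)
  filter_upwards [h1, h2, h3, h4, self_mem_nhdsWithin] with s hs1 hs2 hs3 hs4 hs0
  rw [mem_Ioi] at hs0
  obtain ⟨h5, h6⟩ := geod_dist hγ hs0.le hs3.le
  have hgeo : IsGeod γ y (γ s) := by
    refine ⟨hγ.1, by rw [h5], ?_⟩
    rw [h5]
    intro t ht t' ht'
    exact hγ.2.2 t ⟨ht.1, ht.2.trans hs3.le⟩ t' ⟨ht'.1, ht'.2.trans hs3.le⟩
  have h7 := hXS X hG hCB a b κ O hκ hκ1 hO hst y (γ s) γ hgeo (by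
    rw [h5]
    intro t ht
    refine hρO ?_
    rw [Metric.mem_ball, dist_comm, (geod_dist hγ ht.1 (ht.2.trans hs3.le)).1]
    exact ht.2.trans_lt hs4)
  rw [h5, abs_le] at h7
  rw [abs_le]
  constructor <;> nlinarith [mul_pos hκ hs0, mul_pos hε hs0]

theorem cc_comm (a b c : ℝ) : cc a b c = cc b a c := by
  unfold cc
  rw [mul_comm (cosh a), mul_comm (sinh a)]

theorem mv (hHH : T_HH) (hXS : T_XS) : T_MV := by
  intro X _ hG hCB m a b κ O hκ hκ1 hO hst y hy i ε hε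
  obtain ⟨hs1, hs2⟩ := hst y hy
  have hpair : ∀ j, ∀ w ∈ O, w ≠ a j ∧ w ≠ b j ∧
      cc (dist w (a j)) (dist w (b j)) (dist (a j) (b j)) ≤ -1 + κ ^ 2 := fun j w hw =>
    ⟨((hst w hw).1 j).1, ((hst w hw).1 j).2.1, ((hst w hw).1 j).2.2.le⟩
  constructor
  · intro γ hγ
    have hya : y ≠ a i := (hs1 i).1
    have h1 : ∀ᶠ s in 𝓝[>] (0 : ℝ), ∀ j, j ≠ i →
        |dist (γ s) (a j) - dist y (a j)| ≤ (3 * κ + ε) * s := by
      rw [eventually_all]
      intro j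
      by_cases hj : j = i
      · exact Eventually.of_forall fun s h => absurd hj h
      · refine (both hHH hXS hG hCB (a j) (b j) κ O hκ (by linarith) hO (hpair j) y (a i) hy hya γ
          hγ ε hε (hs2 i j (Ne.symm hj)).1.le (hs2 i j (Ne.symm hj)).2.1.le).mono
          fun s h _ => h
    have h2 : ∀ᶠ s in 𝓝[>] (0 : ℝ), s < dist y (a i) :=
      nhdsWithin_le_nhds (gt_mem_nhds (dist_pos.2 hya))
    filter_upwards [h1, h2, self_mem_nhdsWithin] with s hs hs3 hs0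
    rw [mem_Ioi] at hs0
    obtain ⟨h5, h6⟩ := geod_dist hγ hs0.le hs3.le
    exact ⟨by rw [dist_comm]; exact h5, h6, hs⟩
  · intro γ hγ
    have hyb : y ≠ b i := (hs1 i).2.1
    have h1 : ∀ᶠ s in 𝓝[>] (0 : ℝ), ∀ j, j ≠ i →
        |dist (γ s) (a j) - dist y (a j)| ≤ (3 * κ + ε) * s := by
      rw [eventually_all]
      intro j
      by_cases hj : j = i
      · exact Eventually.of_forall fun s h => absurd hj h
      · refine (both hHH hXS hG hCB (a j) (b j) κ O hκ (by linarith) hO (hpair j) y (b i) hy hyb γ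
          hγ ε hε ?_ (hs2 i j (Ne.symm hj)).2.2.le).mono fun s h _ => h
        rw [cc_comm, dist_comm (b i)]
        exact (hs2 j i hj).2.1.le
    have h2 : ∀ᶠ s in 𝓝[>] (0 : ℝ), s < dist y (b i) :=
      nhdsWithin_le_nhds (gt_mem_nhds (dist_pos.2 hyb))
    have h3 := side hHH hCB y (b i) (a i) γ hγ (-(1 - κ ^ 2)) ε hyb (hs1 i).1 (by
      rw [cc_comm, dist_comm (b i)]
      linarith [(hs1 i).2.2]) hε
    filter_upwards [h1, h2, h3, self_mem_nhdsWithin] with s hs hs3 hs4 hs0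
    rw [mem_Ioi] at hs0
    obtain ⟨h5, h6⟩ := geod_dist hγ hs0.le hs3.le
    refine ⟨by rw [dist_comm]; exact h5, ?_, hs⟩
    linarith

end Pool.Agent.H67.AL
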