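import Pool.Agent.H96.AL.Targets4

/-!
Board al_modules, module RT: rescaling of the metric.
-/

open Topology Set Filter Real

namespace Pool.Agent.H67.AL

open Pool.Agent.H96.AL

section

variable {X Y : Type} [MetricSpace X] [MetricSpace Y] {k : ℝ} {e : X ≃ Y}

theorem rs_symm (hk : 0 < k) (he : ∀ x x' : X, dist (e x) (e x') = k * dist x x') :
    ∀ y y' : Y, dist (e.symm y) (e.symm y') = k⁻¹ * dist y y' := by
  intro y y'
  have h := he (e.symm y) (e.symm y')
  rw [e.apply_symm_apply, e.apply_symm_apply] at h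
  rw [h]
  field_simp

theorem rs_cont (he : ∀ x x' : X, dist (e x) (e x') = k * dist x x') (hk : 0 < k) :
    Continuous e := by
  have h : LipschitzWith ⟨k, hk.le⟩ e := LipschitzWith.of_dist_le_mul fun x y => (he x y).le
  exact h.continuous

theorem rs_crit (hk : 0 < k) (he : ∀ x x' : X, dist (e x) (e x') = k * dist x x') (q p : X)
    (h : Critical q p) : Critical (e q) (e p) := by
  intro ε hε
  have hc : Continuous e.symm := rs_cont (e := e.symm) (rs_symm hk he) (inv_pos.2 hk)
  have ht : Tendsto e.symm (𝓝 (e p)) (𝓝 p) := by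
    have := hc.tendsto (e p)
    rwa [e.symm_apply_apply] at this
  filter_upwards [ht.eventually (h ε hε)] with y hy
  obtain ⟨x, rfl⟩ := e.surjective y
  rw [e.symm_apply_apply] at hy
  rw [he, he, he]
  calc k * dist q x ≤ k * (dist q p + ε * dist x p) := mul_le_mul_of_nonneg_left hy hk.le
    _ = k * dist q p + ε * (k * dist x p) := by ring

theorem rs_min (hk : 0 < k) (he : ∀ x x' : X, dist (e x) (e x') = k * dist x x') (E : Set X)
    (q p : X) (h : IsLocalMinOn (fun y => dist (e q) y) (e '' E) (e p)) :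
    IsLocalMinOn (fun x => dist q x) E p := by
  have ht : Tendsto e (𝓝[E] p) (𝓝[e '' E] (e p)) :=
    (rs_cont he hk).continuousWithinAt.tendsto_nhdsWithin (mapsTo_image e E)
  have h2 : ∀ᶠ x in 𝓝[E] p, dist (e q) (e p) ≤ dist (e q) (e x) := ht.eventually h
  show ∀ᶠ x in 𝓝[E] p, dist q p ≤ dist q x
  filter_upwards [h2] with x hx
  rw [he, he] at hx
  exact le_of_mul_le_mul_left hx hk

theorem rs_ext (hk : 0 < k) (he : ∀ x x' : X, dist (e x) (e x') = k * dist x x') (E : Set X)
    (h : Extremal E) : Extremal (e '' E) := by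
  have hc : Continuous e.symm := rs_cont (e := e.symm) (rs_symm hk he) (inv_pos.2 hk)
  refine ⟨?_, ?_⟩
  · rw [e.image_eq_preimage_symm]
    exact h.1.preimage hc
  · intro q' hq' p' hp' hmin
    obtain ⟨q, rfl⟩ := e.surjective q'
    obtain ⟨p, hp, rfl⟩ := hp'
    have hq : q ∉ E := fun hq => hq' ⟨q, hq, rfl⟩
    exact rs_crit hk he q p (h.2 q hq p hp (rs_min hk he E q p hmin))

theorem rs_hull_one (hk : 0 < k) (he : ∀ x x' : X, dist (e x) (e x') = k * dist x x') (x w : X)
    (h : e w ∈ hull (e x)) : w ∈ hull x := by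
  intro E hE
  obtain ⟨hE1, hE2⟩ := hE
  have h1 := h (e '' E) ⟨rs_ext hk he E hE1, mem_image_of_mem e hE2⟩
  obtain ⟨w', hw', hww⟩ := h1
  rwa [← e.injective hww]

theorem rs_hull (hk : 0 < k) (he : ∀ x x' : X, dist (e x) (e x') = k * dist x x') (x : X) :
    hull (e x) = e '' hull x := by
  apply Subset.antisymm
  · intro y hy
    obtain ⟨w, rfl⟩ := e.surjective y
    exact mem_image_of_mem e (rs_hull_one hk he x w hy)
  · rintro _ ⟨w, hw, rfl⟩
    refine rs_hull_one (e := e.symm) (inv_pos.2 hk) (rs_symm hk he) (e x) (e w) ?_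
    rw [e.symm_apply_apply, e.symm_apply_apply]
    exact hw

theorem rs_stratum (hk : 0 < k) (he : ∀ x x' : X, dist (e x) (e x') = k * dist x x') (x : X) :
    stratum (e x) = e '' stratum x := by
  ext y
  obtain ⟨w, rfl⟩ := e.surjective y
  rw [e.injective.mem_set_image]
  show hull (e w) = hull (e x) ↔ hull w = hull x
  rw [rs_hull hk he, rs_hull hk he]
  exact e.injective.image_injective.eq_iff

theorem rs_geod (hk : 0 < k) (he : ∀ x x' : X, dist (e x) (e x') = k * dist x x') (x y : X)
    (γ : ℝ → X) (h : IsGeod γ x y) : IsGeod (fun s => e (γ (s / k))) (e x) (e y) := by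
  obtain ⟨h1, h2, h3⟩ := h
  refine ⟨?_, ?_, ?_⟩
  · simp only [zero_div]
    rw [h1]
  · simp only
    rw [he, mul_div_cancel_left₀ _ hk.ne', h2]
  · rw [he]
    intro s hs t ht
    have hm : ∀ r ∈ Icc (0 : ℝ) (k * dist x y), r / k ∈ Icc (0 : ℝ) (dist x y) := by
      intro r hr
      exact ⟨div_nonneg hr.1 hk.le, by rw [div_le_iff₀ hk]; linarith [hr.2]⟩
    simp only
    rw [he, h3 _ (hm s hs) _ (hm t ht), ← sub_div, abs_div, abs_of_pos hk]
    field_simp

end

theorem rt : T_RT := by
  intro X Y _ _ k e hk he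
  have hc := rs_cont he hk
  have hc' : Continuous e.symm := rs_cont (e := e.symm) (rs_symm hk he) (inv_pos.2 hk)
  refine ⟨hc, hc', ?_, rs_stratum hk he⟩
  intro hA hB
  have hcX := hA.compact
  have hcY : CompactSpace Y := by
    refine ⟨?_⟩
    have h := isCompact_univ.image hc (X := X)
    rwa [image_univ, e.surjective.range_eq] at h
  constructor
  · refine ⟨max 1 (k * Metric.diam (univ : Set X)), ⟨hcY, ?_, ?_, ?_, le_max_left _ _⟩⟩
    · intro y y'
      obtain ⟨x, rfl⟩ := e.surjective y
      obtain ⟨x', rfl⟩ := e.surjective y'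
      obtain ⟨γ, hγ⟩ := hA.geodesic x x'
      exact ⟨_, rs_geod hk he x x' γ hγ⟩
    · intro q x y m h
      obtain ⟨q, rfl⟩ := e.surjective q
      obtain ⟨x, rfl⟩ := e.surjective x
      obtain ⟨y, rfl⟩ := e.surjective y
      obtain ⟨m, rfl⟩ := e.surjective m
      have h1 : dist (e x) (e m) + dist (e m) (e y) = dist (e x) (e y) := h
      rw [he, he, he, ← mul_add] at h1
      have h2 := hB q x y m (mul_left_cancel₀ hk.ne' h1)
      rw [he, he, he, he, he, he]
      exact h2
    · intro y y'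
      obtain ⟨x, rfl⟩ := e.surjective y
      obtain ⟨x', rfl⟩ := e.surjective y'
      rw [he]
      refine le_trans ?_ (le_max_right _ _)
      exact mul_le_mul_of_nonneg_left
        (Metric.dist_le_diam_of_mem isCompact_univ.isBounded (mem_univ _) (mem_univ _)) hk.le
  · have h : LipschitzWith ⟨k, hk.le⟩ e := LipschitzWith.of_dist_le_mul fun x y => (he x y).le
    have h2 := h.dimH_range_le
    rw [e.surjective.range_eq] at h2
    exact h2.trans_lt hA.finiteDimensional

end Pool.Agent.H67.AL
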